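import Pool.Agent.H66.GUA.Targets

/-!
Module GZ of the project GU (affine trick) on `MP_c59857_nt`: the generalised von Neumann
inequality on the integers.
-/

set_option autoImplicit false

open Finset Filter Topology

namespace Pool.Agent.H90.GUA

open Pool.Agent.H31.DP Pool.Agent.H31.DPD Pool.Agent.H66.GUA
open Pool.Agent.H24.T2 (Pset box cub)
open Pool.Agent.H91.LF (lz)

theorem vma_cast {R : ℕ} [NeZero R] (z : ℤ) (hz : 2 * |z| < R) :
    ((z : ZMod R)).valMinAbs = z := by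
  rw [ZMod.valMinAbs_spec]
  refine ⟨rfl, ?_⟩
  have h1 := abs_lt.1 (show |z * 2| < (R : ℤ) by rw [abs_mul]; simpa [mul_comm] using hz)
  exact ⟨h1.1, h1.2.le⟩

/-- a common bound for a finite set of integers -/
theorem exists_bd (S : Finset ℤ) : ∃ B : ℕ, ∀ z ∈ S, |z| ≤ (B : ℤ) := by
  refine ⟨∑ z ∈ S, z.natAbs, fun z hz => ?_⟩
  rw [Int.abs_eq_natAbs]
  exact_mod_cast Finset.single_le_sum (f := fun z : ℤ => z.natAbs) (fun _ _ => Nat.zero_le _) hz

theorem shift_cast {R : ℕ} [NeZero R] (y : ZMod R) (p w : ℤ) (B : ℕ)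
    (hR : 6 * B < R) (hy : |y.valMinAbs| ≤ (2 * B : ℤ)) (hp : |p * w| ≤ (B : ℤ)) :
    (y + p • (w : ZMod R)).valMinAbs = y.valMinAbs + p * w := by
  have h1 : y + p • (w : ZMod R) = ((y.valMinAbs + p * w : ℤ) : ZMod R) := by
    rw [Int.cast_add, Int.cast_mul, ZMod.coe_valMinAbs, zsmul_eq_mul]
  have h2 := abs_add_le y.valMinAbs (p * w)
  have h4 : (6 * B : ℤ) < R := by exact_mod_cast hR
  rw [h1, vma_cast]
  omega

theorem base_small {R : ℕ} [NeZero R] (y : ZMod R) (p w : ℤ) (B : ℕ)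
    (hR : 6 * B < R) (hp : |p * w| ≤ (B : ℤ)) (hj : |(y + p • (w : ZMod R)).valMinAbs| ≤ (B : ℤ)) :
    |y.valMinAbs| ≤ (2 * B : ℤ) := by
  obtain ⟨j, hj'⟩ : ∃ j : ℤ, j = (y + p • (w : ZMod R)).valMinAbs := ⟨_, rfl⟩
  rw [← hj'] at hj
  have h2 : y = ((j - p * w : ℤ) : ZMod R) := by
    rw [Int.cast_sub, Int.cast_mul, hj', ZMod.coe_valMinAbs, zsmul_eq_mul]
    ring
  have h4 : (6 * B : ℤ) < R := by exact_mod_cast hR
  have h5 := abs_sub j (p * w)
  have h6 : y.valMinAbs = j - p * w := by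
    rw [h2]
    exact vma_cast _ (by omega)
  rw [h6]
  omega

theorem sum_zmod {k : ℕ} (hk : 0 < k) (J Y : Finset ℤ) (G : Fin k → ℤ → ℂ) (v : Fin k → ℤ)
    (p : ℤ) (B : ℕ) {R : ℕ} [NeZero R] (hR : 6 * B < R)
    (hJ : ∀ z ∈ J, |z| ≤ (B : ℤ)) (hY : ∀ z ∈ Y, |z| ≤ (B : ℤ))
    (hp : ∀ i, |p * v i| ≤ (B : ℤ)) (hG : ∀ i z, z ∉ J → G i z = 0)
    (hY0 : ∀ y, y ∉ Y → ∏ i, G i (y + p * v i) = 0) :
    ∑ y : ZMod R, ∏ i, G i (y + p • ((v i : ℤ) : ZMod R)).valMinAbs =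
      ∑ y ∈ Y, ∏ i, G i (y + p * v i) := by
  have h4 : (6 * B : ℤ) < R := by exact_mod_cast hR
  have hz : ∀ y : ZMod R, ¬ |y.valMinAbs| ≤ (2 * B : ℤ) →
      ∏ i, G i (y + p • ((v i : ℤ) : ZMod R)).valMinAbs = 0 := by
    intro y hy
    refine Finset.prod_eq_zero (Finset.mem_univ ⟨0, hk⟩) (hG _ _ fun hj => hy ?_)
    exact base_small y p (v ⟨0, hk⟩) B hR (hp _) (hJ _ hj)
  rw [← Finset.sum_filter_add_sum_filter_not Finset.univ
    (fun y : ZMod R => |y.valMinAbs| ≤ (2 * B : ℤ)),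
    Finset.sum_eq_zero (s := Finset.univ.filter
      (fun y : ZMod R => ¬ |y.valMinAbs| ≤ (2 * B : ℤ)))
      (fun y hy => hz y (Finset.mem_filter.1 hy).2), add_zero]
  have h1 : ∑ y ∈ Y, ∏ i, G i (y + p * v i) =
      ∑ y ∈ Finset.Icc (-(2 * B : ℤ)) (2 * B), ∏ i, G i (y + p * v i) := by
    refine Finset.sum_subset (fun y hy => ?_) (fun y _ hy => hY0 y hy)
    have := abs_le.1 (hY y hy)
    rw [Finset.mem_Icc]
    constructor <;> omega
  rw [h1]
  have hsm : ∀ z ∈ Finset.Icc (-(2 * B : ℤ)) (2 * B), ((z : ZMod R)).valMinAbs = z := by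
    intro z hz
    rw [Finset.mem_Icc, ← abs_le] at hz
    exact vma_cast z (by omega)
  refine Finset.sum_bij' (fun y _ => y.valMinAbs) (fun z _ => (z : ZMod R)) ?_ ?_ ?_ ?_ ?_
  · intro y hy
    exact Finset.mem_Icc.2 (abs_le.1 (Finset.mem_filter.1 hy).2)
  · intro z hz
    rw [Finset.mem_filter]
    refine ⟨Finset.mem_univ _, ?_⟩
    rw [hsm z hz]
    exact abs_le.2 (Finset.mem_Icc.1 hz)
  · intro y _
    exact ZMod.coe_valMinAbs y
  · intro z hz
    exact hsm z hz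
  · intro y hy
    refine Finset.prod_congr rfl fun i _ => ?_
    rw [shift_cast y p (v i) B hR (Finset.mem_filter.1 hy).2 (hp i)]

theorem pf_GZ (hGV : StatementGV) : T_GZ := by
  classical
  intro ι _ X L J Y G v A c hcard hJ hG1 hG0 hA hY
  obtain ⟨n, hn⟩ : ∃ n, Fintype.card ι = n + 1 := ⟨Fintype.card ι - 1, by omega⟩
  let e : ι ≃ Fin (n + 1) := Fintype.equivFinOfCardEq hn
  obtain ⟨B1, hB1⟩ := exists_bd J
  obtain ⟨B2, hB2⟩ := exists_bd Y
  obtain ⟨B3, hB3⟩ := exists_bd (A.biUnion fun p => Finset.univ.image fun i => p * v i)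
  obtain ⟨B, hB⟩ : ∃ B : ℕ, B = B1 + B2 + B3 := ⟨_, rfl⟩
  rw [hn]
  have h1 := hGV (ZMod (6 * B + 1)) n L X
    (Finset.univ.filter fun z : ZMod (6 * B + 1) => z.valMinAbs ∈ J)
    (fun i z => G (e.symm i) z.valMinAbs) (fun i => ((v (e.symm i) : ℤ) : ZMod (6 * B + 1)))
    A c ?_ (fun i z => hG1 _ _) ?_ hA
  · have h2 : ∀ p ∈ A, ∑ y : ZMod (6 * B + 1), ∏ i : Fin (n + 1), G (e.symm i)
        (y + p • ((v (e.symm i) : ℤ) : ZMod (6 * B + 1))).valMinAbs =
        ∑ y ∈ Y, ∏ i, G i (y + p * v i) := by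
      intro p hp
      have hre : ∀ y : ℤ, ∏ i : Fin (n + 1), G (e.symm i) (y + p * v (e.symm i)) =
          ∏ i, G i (y + p * v i) := fun y =>
        e.symm.prod_comp (fun i => G i (y + p * v i))
      rw [sum_zmod (Nat.succ_pos n) J Y (fun i => G (e.symm i)) (fun i => v (e.symm i)) p B
        (Nat.lt_succ_self _) (fun z hz => ?_) (fun z hz => ?_) (fun i => ?_) (fun i z hz => hG0 _ _ hz)
        (fun y hy => ?_)]
      · exact Finset.sum_congr rfl fun y _ => hre y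
      · have := hB1 z hz
        omega
      · have := hB2 z hz
        omega
      · have := hB3 (p * v (e.symm i)) (Finset.mem_biUnion.2 ⟨p, hp, Finset.mem_image.2
          ⟨_, Finset.mem_univ _, rfl⟩⟩)
        omega
      · rw [hre]
        exact hY p hp y hy
    rw [Finset.sum_congr rfl fun p hp => by rw [← h2 p hp]]
    exact h1
  · refine le_trans (Finset.card_le_card_of_injOn (fun z => z.valMinAbs)
      (fun z hz => (Finset.mem_filter.1 hz).2) ?_) hJ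
    intro x _ y _ hxy
    exact ZMod.injective_valMinAbs hxy
  · intro i z hz
    refine hG0 _ _ fun hj => hz ?_
    rw [Finset.mem_filter]
    exact ⟨Finset.mem_univ _, hj⟩

end Pool.Agent.H90.GUA
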