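import Pool.Agent.H66.GUA.Targets

/-!
Module P1 of the project GU (affine trick) on `MP_c59857_nt`: one prime.
-/

set_option autoImplicit false

open Finset Filter Topology

namespace Pool.Agent.H90.GUA

open Pool.Agent.H31.DP Pool.Agent.H31.DPD Pool.Agent.H66.GUA
open Pool.Agent.H24.T2 (Pset box cub)
open Pool.Agent.H91.LF (lz)

theorem TZ_nonneg {l d : ℕ} (h : Fin l → ℕ) (p M : ℕ) (z : Fin d → ℤ) : 0 ≤ TZ h p M z :=
  Finset.sum_nonneg fun _ _ => abs_nonneg _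

theorem sm_lft_inj {q d : ℕ} (p : ℕ) (hp : 0 < p) :
    Function.Injective (fun s : Fin d → ZMod q => sm (p : ℤ) (lft s)) := by
  intro s t hst
  funext i
  have h1 : (p : ℤ) * (s i).valMinAbs = (p : ℤ) * (t i).valMinAbs := congrFun hst i
  have h2 : (p : ℤ) ≠ 0 := by exact_mod_cast hp.ne'
  exact ZMod.injective_valMinAbs (mul_left_cancel₀ h2 h1)

theorem sum_TZ_le (hEV : T_EV) {l d : ℕ} (h : Fin l → ℕ) (q p M : ℕ) [NeZero q] (hp : 0 < p) :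
    ∑ s : Fin d → ZMod q, TZ h p M (sm (p : ℤ) (lft s)) ≤ ∑ z ∈ mulc d p M, TZ h p M z := by
  classical
  rw [← Finset.sum_filter_add_sum_filter_not Finset.univ
    (fun s : Fin d → ZMod q => sm (p : ℤ) (lft s) ∈ mulc d p M)]
  have h1 : ∑ s ∈ Finset.univ.filter (fun s : Fin d → ZMod q =>
      ¬ sm (p : ℤ) (lft s) ∈ mulc d p M), TZ h p M (sm (p : ℤ) (lft s)) = 0 := by
    refine Finset.sum_eq_zero fun s hs => ?_
    refine (hEV d l h p 1 M _ ?_).2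
    have h2 := (Finset.mem_filter.1 hs).2
    unfold mulc at h2
    rw [Fintype.mem_piFinset] at h2
    push Not at h2
    obtain ⟨i, hi⟩ := h2
    refine ⟨i, ?_⟩
    unfold mul at hi
    rw [Finset.mem_filter, not_and] at hi
    by_contra hlt
    push Not at hlt
    refine hi (Finset.mem_Icc.2 (abs_le.1 hlt.le)) ?_
    exact Dvd.intro _ rfl
  rw [h1, add_zero]
  have h3 : ∑ s ∈ Finset.univ.filter (fun s : Fin d → ZMod q =>
      sm (p : ℤ) (lft s) ∈ mulc d p M), TZ h p M (sm (p : ℤ) (lft s)) =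
      ∑ z ∈ (Finset.univ.filter (fun s : Fin d → ZMod q =>
        sm (p : ℤ) (lft s) ∈ mulc d p M)).image (fun s => sm (p : ℤ) (lft s)), TZ h p M z := by
    rw [Finset.sum_image (fun s _ t _ hst => sm_lft_inj p hp hst)]
  rw [h3]
  refine Finset.sum_le_sum_of_subset_of_nonneg (fun z hz => ?_) fun z _ _ => TZ_nonneg h p M z
  obtain ⟨s, hs, rfl⟩ := Finset.mem_image.1 hz
  exact (Finset.mem_filter.1 hs).2

theorem sum_R_le {l d : ℕ} (h : Fin l → ℕ) (q p M : ℕ) [NeZero q]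
    (R : Finset ((Fin d → ZMod q) × (Fin d → ZMod q))) :
    ∑ x ∈ R, TZ h p M (sm (p : ℤ) (lft x.1)) ≤
      (q : ℝ) ^ d * ∑ s : Fin d → ZMod q, TZ h p M (sm (p : ℤ) (lft s)) := by
  refine (Finset.sum_le_sum_of_subset_of_nonneg (Finset.subset_univ R)
    fun x _ _ => TZ_nonneg h p M _).trans ?_
  rw [Fintype.sum_prod_type]
  simp only [Finset.sum_const, Finset.card_univ, nsmul_eq_mul, Fintype.card_fun, ZMod.card,
    Fintype.card_fin]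
  rw [← Finset.mul_sum]
  push_cast
  exact le_rfl

theorem sqrt_bd (d : ℕ) (δ θ D M : ℝ) (hδ : 0 < δ) (hM : 0 ≤ M)
    (hD : D ≤ θ * M ^ (d + 3)) (h64 : 64 * 3 ^ (d + 1) * θ ≤ δ ^ 6) :
    Real.sqrt ((3 * M) ^ (d + 1) * D) ≤ δ ^ 3 / 8 * M ^ (d + 2) := by
  rw [Real.sqrt_le_left (by positivity)]
  calc (3 * M) ^ (d + 1) * D ≤ (3 * M) ^ (d + 1) * (θ * M ^ (d + 3)) :=
        mul_le_mul_of_nonneg_left hD (by positivity)
    _ = (3 ^ (d + 1) * θ) * (M ^ (d + 2)) ^ 2 := by ring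
    _ ≤ (δ ^ 6 / 64) * (M ^ (d + 2)) ^ 2 :=
        mul_le_mul_of_nonneg_right (by linarith) (by positivity)
    _ = (δ ^ 3 / 8 * M ^ (d + 2)) ^ 2 := by ring

theorem pf_P1 (hLA : T_LA) (hCN : T_CN) (hTP : T_TP) (hEV : T_EV) : T_P1 := by
  intro d l h q _ N M p Q δ θ τ R hp hpQ hQ hpM hMN hMq hδ hθ hN hDD h64 hR hRx
  have hp0 : (0 : ℝ) < p := by exact_mod_cast hp.pos
  have hq0 : (0 : ℝ) < q := by exact_mod_cast NeZero.pos q
  -- one `x`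
  have h1 : ∀ x ∈ R, (p : ℝ) ^ 2 * (δ / 2 * q) ^ 2 ≤
      Q * (RZ h p Q M (sm p (lft x.1)) (((τ x.1).val : ℝ) / q / p)).re +
        p * TZ h p M (sm p (lft x.1)) := by
    intro x hx
    refine le_trans ?_ (hLA d l h p Q M (lft x.1) (((τ x.1).val : ℝ) / q) hp hpQ hQ)
    have h2 := hCN d l h N (M / p) (lft x.1) (((τ x.1).val : ℝ) / q) hMN
    have h3 := hRx x hx
    have h4 : δ / 2 * q ≤ ‖hs h (M / p) (lft x.1) (((τ x.1).val : ℝ) / q)‖ := by linarith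
    have h5 : (δ / 2 * q) ^ 2 ≤ ‖hs h (M / p) (lft x.1) (((τ x.1).val : ℝ) / q)‖ ^ 2 :=
      pow_le_pow_left₀ (by positivity) h4 2
    exact mul_le_mul_of_nonneg_left h5 (by positivity)
  have h2 := Finset.sum_le_sum h1
  rw [Finset.sum_const, nsmul_eq_mul, Finset.sum_add_distrib, ← Finset.mul_sum,
    ← Finset.mul_sum] at h2
  -- the balanced part
  obtain ⟨S, hS⟩ : ∃ S : ℝ, S = ∑ z ∈ mulc d p M, TZ h p M z := ⟨_, rfl⟩
  have h3 : ∑ x ∈ R, TZ h p M (sm (p : ℤ) (lft x.1)) ≤ (q : ℝ) ^ d * S := by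
    rw [hS]
    exact (sum_R_le h q p M R).trans
      (mul_le_mul_of_nonneg_left (sum_TZ_le hEV h q p M hp.pos) (by positivity))
  have h4 : (p : ℝ) ^ (d + 1) * S ≤ δ ^ 3 / 8 * (M : ℝ) ^ (d + 2) := by
    rw [hS]
    exact (hTP d l h p M hp.pos hpM).trans (sqrt_bd d δ θ _ _ hδ (Nat.cast_nonneg _) hDD h64)
  have h5 : (M : ℝ) ≤ q * p := by exact_mod_cast hMq
  have h6 : (p : ℝ) ^ (d + 1) * S ≤ (p : ℝ) ^ (d + 1) * (δ ^ 3 / 8 * (q : ℝ) ^ (d + 2) * p) := by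
    refine h4.trans ?_
    have h7 : (M : ℝ) ^ (d + 2) ≤ ((q : ℝ) * p) ^ (d + 2) :=
      pow_le_pow_left₀ (Nat.cast_nonneg _) h5 _
    calc δ ^ 3 / 8 * (M : ℝ) ^ (d + 2) ≤ δ ^ 3 / 8 * ((q : ℝ) * p) ^ (d + 2) :=
          mul_le_mul_of_nonneg_left h7 (by positivity)
      _ = (p : ℝ) ^ (d + 1) * (δ ^ 3 / 8 * (q : ℝ) ^ (d + 2) * p) := by ring
  have h7 : S ≤ δ ^ 3 / 8 * (q : ℝ) ^ (d + 2) * p := le_of_mul_le_mul_left h6 (by positivity)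
  have h8 : p * ∑ x ∈ R, TZ h p M (sm (p : ℤ) (lft x.1)) ≤
      δ ^ 3 / 8 * (p : ℝ) ^ 2 * (q : ℝ) ^ (2 * d + 2) := by
    calc p * ∑ x ∈ R, TZ h p M (sm (p : ℤ) (lft x.1)) ≤ p * ((q : ℝ) ^ d * S) :=
          mul_le_mul_of_nonneg_left h3 hp0.le
      _ ≤ p * ((q : ℝ) ^ d * (δ ^ 3 / 8 * (q : ℝ) ^ (d + 2) * p)) :=
          mul_le_mul_of_nonneg_left (mul_le_mul_of_nonneg_left h7 (by positivity)) hp0.le
      _ = δ ^ 3 / 8 * (p : ℝ) ^ 2 * (q : ℝ) ^ (2 * d + 2) := by ring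
  have h9 : δ ^ 3 / 4 * (p : ℝ) ^ 2 * (q : ℝ) ^ (2 * d + 2) ≤
      (R.card : ℝ) * ((p : ℝ) ^ 2 * (δ / 2 * q) ^ 2) := by
    calc δ ^ 3 / 4 * (p : ℝ) ^ 2 * (q : ℝ) ^ (2 * d + 2) =
        (δ * (q : ℝ) ^ (2 * d)) * ((p : ℝ) ^ 2 * (δ / 2 * q) ^ 2) := by ring
      _ ≤ (R.card : ℝ) * ((p : ℝ) ^ 2 * (δ / 2 * q) ^ 2) :=
          mul_le_mul_of_nonneg_right hR (by positivity)
  have h10 : δ ^ 3 / 4 * (p : ℝ) ^ 2 * (q : ℝ) ^ (2 * d + 2) =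
      δ ^ 3 / 8 * (p : ℝ) ^ 2 * (q : ℝ) ^ (2 * d + 2) +
        δ ^ 3 / 8 * (p : ℝ) ^ 2 * (q : ℝ) ^ (2 * d + 2) := by ring
  linarith

end Pool.Agent.H90.GUA
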